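import Pool.Agent.H74R2.WT.Stmts

set_option autoImplicit false

open MeasureTheory Set Filter Topology

namespace H74R2.WT

noncomputable section

private lemma j2_mem (a b c d : ℝ) (e : ℂ) (he : 0 < e.im) (z : ℂ) : z ∈ F0 a b c d e ↔
    (((0 ≤ z.re - z.im / e.im * e.re ∧ z.re - z.im / e.im * e.re < a) ∧
      (0 ≤ z.im / e.im ∧ z.im / e.im < d)) ∨
     ((a ≤ z.re - z.im / e.im * e.re ∧ z.re - z.im / e.im * e.re < a + c) ∧
      (0 ≤ z.im / e.im ∧ z.im / e.im < b))) := by
  constructor
  · rintro ⟨s, t, hz, h⟩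
    have h1 : z.im / e.im = t := by
      rw [hz]; simp; field_simp
    have h2 : z.re - z.im / e.im * e.re = s := by
      rw [h1, hz]; simp
    rw [h2, h1]; exact h
  · intro h
    refine ⟨_, _, ?_, h⟩
    apply Complex.ext
    · simp
    · simp; field_simp

private lemma j2_mem' (a b c d : ℝ) (e : ℂ) (he : 0 < e.im) (z : ℂ) : z ∈ F0 a b c d e ↔
    (((0 ≤ e.im * z.re - e.re * z.im ∧ e.im * z.re - e.re * z.im < a * e.im) ∧
      (0 ≤ z.im ∧ z.im < d * e.im)) ∨
     ((a * e.im ≤ e.im * z.re - e.re * z.im ∧ e.im * z.re - e.re * z.im < (a + c) * e.im) ∧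
      (0 ≤ z.im ∧ z.im < b * e.im))) := by
  rw [j2_mem a b c d e he z]
  have h1 : z.re - z.im / e.im * e.re = (e.im * z.re - e.re * z.im) / e.im := by
    field_simp
  rw [h1, le_div_iff₀ he, le_div_iff₀ he, div_lt_iff₀ he, div_lt_iff₀ he, le_div_iff₀ he,
    div_lt_iff₀ he, div_lt_iff₀ he]
  simp only [zero_mul]

private lemma j2_ev {X : Type*} [TopologicalSpace X] (f : X → ℝ) (hf : Continuous f) (k : ℝ) (z : X)
    (hz : f z ≠ k) : ∀ᶠ w in 𝓝 z, (f w < k ↔ f z < k) ∧ (k ≤ f w ↔ k ≤ f z) := by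
  rcases lt_or_gt_of_ne hz with h | h
  · have : ∀ᶠ w in 𝓝 z, f w < k := hf.continuousAt.eventually (gt_mem_nhds h)
    filter_upwards [this] with w hw
    exact ⟨⟨fun _ => h, fun _ => hw⟩, ⟨fun h' => absurd h' (not_le.2 hw), fun h' => absurd h' (not_le.2 h)⟩⟩
  · have : ∀ᶠ w in 𝓝 z, k < f w := hf.continuousAt.eventually (lt_mem_nhds h)
    filter_upwards [this] with w hw
    exact ⟨⟨fun h' => absurd hw h'.not_gt, fun h' => absurd h h'.not_gt⟩,
      ⟨fun _ => h.le, fun _ => hw.le⟩⟩

private lemma j2_gd (K : Subfield ℝ) (a b c d : ℝ) (e : ℂ) (h1 : e.re ∈ K) (h2 : e.im ∈ K)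
    (he : 0 < e.im) : Gd K (F0 a b c d e) := by
  constructor
  · rw [isBounded_iff_forall_norm_le]
    refine ⟨(|a| + |a + c|) + (|b| + |d|) * ‖e‖, ?_⟩
    rintro z ⟨s, t, rfl, h⟩
    have hs : |s| ≤ |a| + |a + c| := by
      rcases h with h | h
      · rw [abs_of_nonneg h.1.1]
        have := le_abs_self a
        have := abs_nonneg (a + c)
        linarith [h.1.2]
      · rw [abs_le]
        have := le_abs_self (a + c)
        have := neg_abs_le a
        have := abs_nonneg a
        have := abs_nonneg (a + c)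
        constructor <;> linarith [h.1.1, h.1.2]
    have ht : |t| ≤ |b| + |d| := by
      rcases h with h | h
      · rw [abs_of_nonneg h.2.1]
        have := le_abs_self d
        have := abs_nonneg b
        linarith [h.2.2]
      · rw [abs_of_nonneg h.2.1]
        have := le_abs_self b
        have := abs_nonneg d
        linarith [h.2.2]
    have h3 : ‖(s : ℂ) + t * e‖ ≤ |s| + |t| * ‖e‖ := by
      refine (norm_add_le _ _).trans ?_
      simp
    have h4 : |t| * ‖e‖ ≤ (|b| + |d|) * ‖e‖ := mul_le_mul_of_nonneg_right ht (norm_nonneg _)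
    linarith
  · refine ⟨{(0, 1, 0), (0, 1, d * e.im), (0, 1, b * e.im), (e.im, -e.re, 0),
      (e.im, -e.re, a * e.im), (e.im, -e.re, (a + c) * e.im)}, ?_, ?_⟩
    · intro q hq
      simp only [Finset.mem_insert, Finset.mem_singleton] at hq
      have h0 : (0 : ℝ) ∈ K := K.zero_mem
      have h11 : (1 : ℝ) ∈ K := K.one_mem
      have hn : -e.re ∈ K := K.neg_mem h1
      rcases hq with rfl | rfl | rfl | rfl | rfl | rfl <;> simp [h0, h11, h1, h2, he.ne']
    · intro z hz
      by_contra hcon
      simp only [Finset.mem_insert, Finset.mem_singleton, mem_ofPred_eq, exists_eq_or_imp,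
        exists_eq_left, not_or] at hcon
      obtain ⟨g1, g2, g3, g4, g5, g6⟩ := hcon
      have c1 : Continuous (fun w : ℂ => w.im) := Complex.continuous_im
      have c2 : Continuous (fun w : ℂ => e.im * w.re - e.re * w.im) := by fun_prop
      have e1 := j2_ev _ c1 0 z (by intro h; apply g1; linarith)
      have e2 := j2_ev _ c1 (d * e.im) z (by intro h; apply g2; linarith)
      have e3 := j2_ev _ c1 (b * e.im) z (by intro h; apply g3; linarith)
      have e4 := j2_ev _ c2 0 z (by intro h; apply g4; linarith)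
      have e5 := j2_ev _ c2 (a * e.im) z (by intro h; apply g5; linarith)
      have e6 := j2_ev _ c2 ((a + c) * e.im) z (by intro h; apply g6; linarith)
      have key : ∀ᶠ w in 𝓝 z, (w ∈ F0 a b c d e ↔ z ∈ F0 a b c d e) := by
        filter_upwards [e1, e2, e3, e4, e5, e6] with w f1 f2 f3 f4 f5 f6
        rw [j2_mem' a b c d e he w, j2_mem' a b c d e he z, f1.2, f2.1, f3.1, f4.2, f5.1, f5.2, f6.1]
      by_cases hzF : z ∈ F0 a b c d e
      · have : F0 a b c d e ∈ 𝓝 z := by
          filter_upwards [key] with w hw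
          exact hw.2 hzF
        have h5 : z ∈ interior (F0 a b c d e) := mem_interior_iff_mem_nhds.2 this
        exact hz.2 h5
      · have : (F0 a b c d e)ᶜ ∈ 𝓝 z := by
          filter_upwards [key] with w hw
          exact fun h => hzF (hw.1 h)
        have h5 : z ∈ interior ((F0 a b c d e)ᶜ) := mem_interior_iff_mem_nhds.2 this
        rw [interior_compl] at h5
        exact h5 hz.1

private lemma j2_hs (a b c d : ℝ) (e : ℂ) (he : 0 < e.im) (ha : 0 < a) (hc : 0 ≤ c) (y : ℝ) :
    hs (F0 a b c d e) y = (if 0 ≤ y / e.im ∧ y / e.im < d then a else 0) +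
      (if 0 ≤ y / e.im ∧ y / e.im < b then c else 0) := by
  unfold hs
  have hset : {x : ℝ | (⟨x, y⟩ : ℂ) ∈ F0 a b c d e} = {x : ℝ |
      (((0 ≤ x - y / e.im * e.re ∧ x - y / e.im * e.re < a) ∧
      (0 ≤ y / e.im ∧ y / e.im < d)) ∨
     ((a ≤ x - y / e.im * e.re ∧ x - y / e.im * e.re < a + c) ∧
      (0 ≤ y / e.im ∧ y / e.im < b)))} := by
    ext x
    exact j2_mem a b c d e he ⟨x, y⟩
  rw [hset]
  set t := y / e.im with ht
  by_cases h1 : 0 ≤ t ∧ t < d
  · by_cases h2 : 0 ≤ t ∧ t < b
    · rw [if_pos h1, if_pos h2]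
      have : {x : ℝ | ((0 ≤ x - t * e.re ∧ x - t * e.re < a) ∧ 0 ≤ t ∧ t < d) ∨
          ((a ≤ x - t * e.re ∧ x - t * e.re < a + c) ∧ 0 ≤ t ∧ t < b)} =
          Ico (t * e.re) (t * e.re + (a + c)) := by
        ext x
        simp only [mem_ofPred_eq, mem_Ico, h1, h2, and_true]
        constructor
        · rintro (h | h) <;> constructor <;> linarith [h.1, h.2]
        · rintro ⟨h3, h4⟩
          rcases lt_or_ge (x - t * e.re) a with h5 | h5
          · left; constructor <;> linarith
          · right; constructor <;> linarith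
      rw [this, Real.volume_Ico, ENNReal.toReal_ofReal (by linarith)]
      ring
    · rw [if_pos h1, if_neg h2]
      have : {x : ℝ | ((0 ≤ x - t * e.re ∧ x - t * e.re < a) ∧ 0 ≤ t ∧ t < d) ∨
          ((a ≤ x - t * e.re ∧ x - t * e.re < a + c) ∧ 0 ≤ t ∧ t < b)} =
          Ico (t * e.re) (t * e.re + a) := by
        ext x
        simp only [mem_ofPred_eq, mem_Ico]
        constructor
        · rintro (h | h)
          · constructor <;> linarith [h.1.1, h.1.2]
          · exact absurd h.2 h2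
        · rintro ⟨h3, h4⟩
          left
          exact ⟨⟨by linarith, by linarith⟩, h1⟩
      rw [this, Real.volume_Ico, ENNReal.toReal_ofReal (by linarith)]
      ring
  · by_cases h2 : 0 ≤ t ∧ t < b
    · rw [if_neg h1, if_pos h2]
      have : {x : ℝ | ((0 ≤ x - t * e.re ∧ x - t * e.re < a) ∧ 0 ≤ t ∧ t < d) ∨
          ((a ≤ x - t * e.re ∧ x - t * e.re < a + c) ∧ 0 ≤ t ∧ t < b)} =
          Ico (t * e.re + a) (t * e.re + (a + c)) := by
        ext x
        simp only [mem_ofPred_eq, mem_Ico]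
        constructor
        · rintro (h | h)
          · exact absurd h.2 h1
          · constructor <;> linarith [h.1.1, h.1.2]
        · rintro ⟨h3, h4⟩
          right
          exact ⟨⟨by linarith, by linarith⟩, h2⟩
      rw [this, Real.volume_Ico, ENNReal.toReal_ofReal (by linarith)]
      ring
    · rw [if_neg h1, if_neg h2]
      have : {x : ℝ | ((0 ≤ x - t * e.re ∧ x - t * e.re < a) ∧ 0 ≤ t ∧ t < d) ∨
          ((a ≤ x - t * e.re ∧ x - t * e.re < a + c) ∧ 0 ≤ t ∧ t < b)} = ∅ := by
        ext x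
        simp only [mem_ofPred_eq, mem_empty_iff_false, iff_false]
        rintro (h | h)
        · exact h1 h.2
        · exact h2 h.2
      rw [this]
      simp

private lemma j2_ne0 : ∀ᵐ y : ℝ, y ≠ 0 := by
  have : (volume : Measure ℝ) {(0 : ℝ)} = 0 := by simp
  exact (measure_eq_zero_iff_ae_notMem.1 this).mono fun y hy => by simpa using hy

theorem t_J2 : T_J2 := by
  intro hAr K σ φ hS a b c d e h1 h2 he ha hd hbc
  refine ⟨j2_gd K a b c d e h1 h2 he, ?_⟩
  have hphi : ∀ x : ℝ, φ (x * e.im) = σ ⟨e.im, h2⟩ * φ x := by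
    intro x
    rw [mul_comm]
    exact hS ⟨e.im, h2⟩ x
  rcases hbc with ⟨hb, hc⟩ | ⟨hb, hc⟩
  · have hrep : RepOf K (F0 a b c d e)
        [⟨0, d * e.im, a, 0, by positivity⟩, ⟨0, b * e.im, c, 0, by positivity⟩] := by
      filter_upwards [j2_ne0] with y hy
      rw [j2_hs a b c d e he ha hc.le y]
      simp only [List.map_cons, List.map_nil, List.sum_cons, List.sum_nil, Piece.f]
      have q : 0 ≤ y / e.im ↔ 0 < y := by
        rw [le_div_iff₀ he, zero_mul]
        exact ⟨fun h => lt_of_le_of_ne h (Ne.symm hy), fun h => h.le⟩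
      simp only [q, div_lt_iff₀ he]
      simp
    rw [hAr K σ φ hS _ _ hrep]
    simp only [List.map_cons, List.map_nil, List.sum_cons, List.sum_nil, Piece.J, hphi, map_zero]
    ring
  · subst hb; subst hc
    have hrep : RepOf K (F0 a 0 0 d e) [⟨0, d * e.im, a, 0, by positivity⟩] := by
      filter_upwards [j2_ne0] with y hy
      rw [j2_hs a 0 0 d e he ha le_rfl y]
      simp only [List.map_cons, List.map_nil, List.sum_cons, List.sum_nil, Piece.f]
      have q : 0 ≤ y / e.im ↔ 0 < y := by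
        rw [le_div_iff₀ he, zero_mul]
        exact ⟨fun h => lt_of_le_of_ne h (Ne.symm hy), fun h => h.le⟩
      simp only [q, div_lt_iff₀ he]
      simp
    rw [hAr K σ φ hS _ _ hrep]
    simp only [List.map_cons, List.map_nil, List.sum_cons, List.sum_nil, Piece.J, hphi, map_zero]
    ring

end

end H74R2.WT
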